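import Mathlib
import Pool.Agent.Lib.MP_257afc_co.BB.Final

/-!
Kalai's simplex-or-cube face conjecture for polytopes with few vertices or few facets, and for
polytopes in which any `k` facets intersect.
-/

set_option autoImplicit false

namespace Pool.Agent.Results.MP_257afc_co.FewVerticesOrFacets

/-- The Euclidean space `ℝ^m`. -/
abbrev Space (m : ℕ) : Type := EuclideanSpace ℝ (Fin m)

/-- The convex hull of a finite set. -/
def hull {m : ℕ} (S : Finset (Space m)) : Set (Space m) := convexHull ℝ (S : Set (Space m))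

/-- The dimension of a set, i.e. of its affine hull. -/
noncomputable def dim {m : ℕ} (F : Set (Space m)) : ℕ :=
  Module.finrank ℝ (affineSpan ℝ F).direction

/-- `F` is a `j`-face of the polytope with vertices in `S`. -/
def IsFace {m : ℕ} (S : Finset (Space m)) (j : ℕ) (F : Set (Space m)) : Prop :=
  F.Nonempty ∧ IsExposed ℝ (hull S) F ∧ dim F = j

/-- `F` is a `k`-simplex. -/
def IsSimplex {m : ℕ} (k : ℕ) (F : Set (Space m)) : Prop :=
  ∃ T : Finset (Space m), T.card = k + 1 ∧
    AffineIndependent ℝ (fun x : T => (x : Space m)) ∧ F = hull T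

/-- The set of vertices. -/
def vertices {m : ℕ} (S : Finset (Space m)) : Set (Space m) := (hull S).extremePoints ℝ

/-- Let `P` be a `d`-polytope, the convex hull of the finite set `S ⊂ ℝ^m`, and `1 ≤ k ≤ d`. If
any at most `k` facets of `P` have a common point, or `P` has fewer than
`k (k / (k - 1)) ^ (d - k + 1)` vertices, or fewer than `k d / (k - 1)` facets, then `P` has a
`k`-face which is a simplex. -/
theorem result : ∀ (k d m : ℕ), 1 ≤ k → k ≤ d → ∀ S : Finset (Space m), dim (hull S) = d →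
    ((∀ s : Finset (Set (Space m)), s.card ≤ k → (∀ F ∈ s, IsFace S (d - 1) F) →
        ∃ x ∈ hull S, ∀ F ∈ s, x ∈ F) ∨
      (k - 1) ^ (d + 1 - k) * (vertices S).ncard < k ^ (d + 2 - k) ∨
      (k - 1) * {F : Set (Space m) | IsFace S (d - 1) F}.ncard < k * d) →
    ∃ F : Set (Space m), IsFace S k F ∧ IsSimplex k F := by
  intro k d m hk hkd S hS h
  by_contra hno
  have hS' : Module.finrank ℝ (affineSpan ℝ (S : Set (Space m))).direction = d := by
    rw [← affineSpan_convexHull]; exact hS
  obtain ⟨h1, h2, -, h4⟩ := Pool.Agent.Lib.MP_257afc_co.BB.main k d m hk hkd S hS' (by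
    rintro ⟨F, hF1, hF2, hF3, hF4⟩
    exact hno ⟨F, ⟨hF1, hF2, hF3⟩, hF4⟩)
  rcases h with h | h | h
  · obtain ⟨s, hs1, hs2, hs3⟩ := h1
    obtain ⟨x, hx, hxF⟩ := h s hs1 hs2
    obtain ⟨F, hF, hFx⟩ := hs3 x hx
    exact hFx (hxF F hF)
  · exact absurd h2 (not_le.2 h)
  · exact absurd h4 (not_le.2 h)

end Pool.Agent.Results.MP_257afc_co.FewVerticesOrFacets
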