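import Pool.Agent.Lib.MP_257afc_co.LD.H31.Fin

/-!
Kalai's simplex-or-cube face conjecture for polytopes with low vertex degrees.
-/

set_option autoImplicit false

namespace Pool.Agent.Results.MP_257afc_co.LowDegree

/-- The Euclidean space `ℝ^d`. -/
abbrev Space (d : ℕ) : Type := EuclideanSpace ℝ (Fin d)

/-- The convex hull of a finite set. -/
def hull {d : ℕ} (S : Finset (Space d)) : Set (Space d) := convexHull ℝ (S : Set (Space d))

/-- The dimension of a set, i.e. of its affine hull. -/
noncomputable def dim {d : ℕ} (F : Set (Space d)) : ℕ :=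
  Module.finrank ℝ (affineSpan ℝ F).direction

/-- The edges of `P` at `v`: the exposed faces of dimension one which contain `v`. -/
def edgesAt {d : ℕ} (P : Set (Space d)) (v : Space d) : Set (Set (Space d)) :=
  {G | IsExposed ℝ P G ∧ v ∈ G ∧ dim G = 1}

/-- The degree of `v` in `P`: the number of edges of `P` at `v`. -/
noncomputable def degree {d : ℕ} (P : Set (Space d)) (v : Space d) : ℕ := (edgesAt P v).ncard

/-- The vertices of the cube `[0,1]^k`. -/
def cubeVertices (k : ℕ) : Set (Fin k → ℝ) := {x | ∀ i, x i = 0 ∨ x i = 1}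

/-- `F` is a `k`-simplex. -/
def IsSimplex {d : ℕ} (k : ℕ) (F : Set (Space d)) : Prop :=
  ∃ T : Finset (Space d), T.card = k + 1 ∧
    AffineIndependent ℝ (fun x : T => (x : Space d)) ∧ F = hull T

/-- The set `A` of vertices of `F` is the set of all vertices of an exposed face of `F`. -/
def IsFaceOf {d : ℕ} (F : Set (Space d)) (A : Set (Space d)) : Prop :=
  ∃ G : Set (Space d), IsExposed ℝ F G ∧ A = G ∩ F.extremePoints ℝ

/-- The set `B` of vertices of the cube is the set of all vertices of an exposed face of it. -/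
def IsCubeFace {k : ℕ} (B : Set (Fin k → ℝ)) : Prop :=
  ∃ H : Set (Fin k → ℝ), IsExposed ℝ (convexHull ℝ (cubeVertices k)) H ∧ B = H ∩ cubeVertices k

/-- `F` is combinatorially isomorphic to the `k`-cube: a bijection of the vertices which
matches the vertex sets of exposed faces. -/
def IsCombCube {d : ℕ} (k : ℕ) (F : Set (Space d)) : Prop :=
  ∃ e : F.extremePoints ℝ ≃ cubeVertices k, ∀ A : Set (F.extremePoints ℝ),
    IsFaceOf F (Subtype.val '' A) ↔ IsCubeFace (Subtype.val '' (e '' A))

/-- Let `P ⊆ ℝ^d` be a `d`-polytope with vertex set `S`, and `4 ^ k * k ^ 3 < K`. If the average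
over the vertices of `degree v ^ (K - 1)` is less than `d ^ K / (2 * K) ^ (K + 1)` then `P` has a
`k`-face which is a simplex or has the face lattice of the `k`-dimensional cube. -/
theorem result : ∀ k K d : ℕ, 4 ^ k * k ^ 3 < K → ∀ S : Finset (Space d),
    affineSpan ℝ (S : Set (Space d)) = ⊤ → (hull S).extremePoints ℝ = (S : Set (Space d)) →
    (2 * K) ^ (K + 1) * ∑ v ∈ S, degree (hull S) v ^ (K - 1) < S.card * d ^ K →
    ∃ F : Set (Space d), F.Nonempty ∧ IsExposed ℝ (hull S) F ∧ dim F = k ∧
      (IsSimplex k F ∨ IsCombCube k F) := by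
  classical
  intro k K d hkK S hspan hext hdeg
  have hK : 1 ≤ K := by omega
  refine (Pool.Agent.Lib.MP_257afc_co.LD.main (finrank_euclideanSpace_fin (𝕜 := ℝ) (n := d)) S
    hext.symm hspan ?_).2 k hkK
  refine Pool.Agent.Lib.MP_257afc_co.LD.numeric S (fun v => degree (hull S) v) hK
    (fun v hv => ?_) hdeg
  exact Pool.Agent.Lib.MP_257afc_co.LD.degree_ge
    (finrank_euclideanSpace_fin (𝕜 := ℝ) (n := d)) S hext.symm hspan hv

end Pool.Agent.Results.MP_257afc_co.LowDegree
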