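import Pool.Agent.Lib.MP_257afc_co.Final

/-!
Kalai's simplex-or-cube face conjecture for simple polytopes.
-/

set_option autoImplicit false

namespace Pool.Agent.Results.MP_257afc_co.SimplePolytopes

/-- The Euclidean space `ℝ^d`. -/
abbrev Space (d : ℕ) : Type := EuclideanSpace ℝ (Fin d)

/-- The convex hull of a finite set. -/
def hull {d : ℕ} (S : Finset (Space d)) : Set (Space d) := convexHull ℝ (S : Set (Space d))

/-- The dimension of a set, i.e. of its affine hull. -/
noncomputable def dim {d : ℕ} (F : Set (Space d)) : ℕ :=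
  Module.finrank ℝ (affineSpan ℝ F).direction

/-- The edges of `P` at `v`: the exposed faces of dimension one which contain `v`. -/
def edgesAt {d : ℕ} (P : Set (Space d)) (v : Space d) : Set (Set (Space d)) :=
  {G | IsExposed ℝ P G ∧ v ∈ G ∧ dim G = 1}

/-- Every vertex of `P ⊆ ℝ^d` lies in exactly `d` edges. -/
def IsSimple {d : ℕ} (P : Set (Space d)) : Prop :=
  ∀ v ∈ P.extremePoints ℝ, (edgesAt P v).ncard = d

/-- The vertices of the cube `[0,1]^k`. -/
def cubeVertices (k : ℕ) : Set (Fin k → ℝ) := {x | ∀ i, x i = 0 ∨ x i = 1}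

/-- `F` is a `k`-simplex. -/
def IsSimplex {d : ℕ} (k : ℕ) (F : Set (Space d)) : Prop :=
  ∃ T : Finset (Space d), T.card = k + 1 ∧
    AffineIndependent ℝ (fun x : T => (x : Space d)) ∧ F = hull T

/-- The set `A` of vertices of `F` is the set of all vertices of an exposed face of `F`. -/
def IsFaceOf {d : ℕ} (F : Set (Space d)) (A : Set (Space d)) : Prop :=
  ∃ G : Set (Space d), IsExposed ℝ F G ∧ A = G ∩ F.extremePoints ℝ

/-- The set `B` of vertices of the cube is the set of all vertices of an exposed face of it. -/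
def IsCubeFace {k : ℕ} (B : Set (Fin k → ℝ)) : Prop :=
  ∃ H : Set (Fin k → ℝ), IsExposed ℝ (convexHull ℝ (cubeVertices k)) H ∧ B = H ∩ cubeVertices k

/-- `F` is combinatorially isomorphic to the `k`-cube: a bijection of the vertices which
matches the vertex sets of exposed faces. -/
def IsCombCube {d : ℕ} (k : ℕ) (F : Set (Space d)) : Prop :=
  ∃ e : F.extremePoints ℝ ≃ cubeVertices k, ∀ A : Set (F.extremePoints ℝ),
    IsFaceOf F (Subtype.val '' A) ↔ IsCubeFace (Subtype.val '' (e '' A))

/-- Let `P` be the convex hull of a finite set `S` of affine span `ℝ^d` with `4 ^ k * k ^ 3 < d`,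
and suppose that every vertex of `P` lies in exactly `d` edges (exposed faces of
dimension one). Then `P` has a `k`-face which is a simplex or has the face lattice of the
`k`-dimensional cube. -/
theorem result : ∀ k d : ℕ, 4 ^ k * k ^ 3 < d → ∀ S : Finset (Space d),
    affineSpan ℝ (S : Set (Space d)) = ⊤ → IsSimple (hull S) →
    ∃ F : Set (Space d), F.Nonempty ∧ IsExposed ℝ (hull S) F ∧ dim F = k ∧
      (IsSimplex k F ∨ IsCombCube k F) := by
  classical
  intro k d hd S hS hsimple
  have hdpos : 0 < d := lt_of_le_of_lt (Nat.zero_le _) hd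
  obtain ⟨P, -, hconv⟩ :=
    Pool.Agent.Lib.MP_257afc_co.exists_sys hdpos S hS hsimple
  have hne : P.V.Nonempty := by
    rw [Finset.nonempty_iff_ne_empty]
    intro h
    rw [h, Finset.coe_empty, convexHull_empty] at hconv
    have h2 : affineSpan ℝ (convexHull ℝ (S : Set (EuclideanSpace ℝ (Fin d)))) = ⊤ := by
      rw [affineSpan_convexHull, hS]
    rw [← hconv, AffineSubspace.span_empty] at h2
    exact AffineSubspace.bot_ne_top ℝ (EuclideanSpace ℝ (Fin d)) (EuclideanSpace ℝ (Fin d)) h2
  obtain ⟨F, h1, h2, h3, h4⟩ := Pool.Agent.Lib.MP_257afc_co.main_sys P hd hne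
  rw [hconv] at h2
  exact ⟨F, h1, h2, h3, h4⟩

end Pool.Agent.Results.MP_257afc_co.SimplePolytopes
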