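import Pool.Agent.Lib.MP_257afc_co.ZO.H23.Gen

/-!
Kalai's simplex-or-cube face conjecture for polytopes with many independent two-valued
functionals, in particular for all 0/1-polytopes.
-/

set_option autoImplicit false

namespace Pool.Agent.Results.MP_257afc_co.ZeroOnePolytopes

/-- The Euclidean space `ℝ^d`. -/
abbrev Space (d : ℕ) : Type := EuclideanSpace ℝ (Fin d)

/-- The convex hull of a finite set. -/
def hull {d : ℕ} (S : Finset (Space d)) : Set (Space d) := convexHull ℝ (S : Set (Space d))

/-- The dimension of a set, i.e. of its affine hull. -/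
noncomputable def dim {d : ℕ} (F : Set (Space d)) : ℕ :=
  Module.finrank ℝ (affineSpan ℝ F).direction

/-- The vertices of the cube `[0,1]^k`. -/
def cubeVertices (k : ℕ) : Set (Fin k → ℝ) := {x | ∀ i, x i = 0 ∨ x i = 1}

/-- `F` is a `k`-simplex. -/
def IsSimplex {d : ℕ} (k : ℕ) (F : Set (Space d)) : Prop :=
  ∃ T : Finset (Space d), T.card = k + 1 ∧
    AffineIndependent ℝ (fun x : T => (x : Space d)) ∧ F = hull T

/-- `F` is the image of the cube `[0,1]^k` under an injective affine map. -/
def IsAffineCube {d : ℕ} (k : ℕ) (F : Set (Space d)) : Prop :=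
  ∃ Θ : (Fin k → ℝ) →ᵃ[ℝ] Space d, Function.Injective Θ ∧
    F = Θ '' convexHull ℝ (cubeVertices k)

/-- The set `A` of vertices of `F` is the set of all vertices of an exposed face of `F`. -/
def IsFaceOf {d : ℕ} (F : Set (Space d)) (A : Set (Space d)) : Prop :=
  ∃ G : Set (Space d), IsExposed ℝ F G ∧ A = G ∩ F.extremePoints ℝ

/-- The set `B` of vertices of the cube is the set of all vertices of an exposed face of it. -/
def IsCubeFace {k : ℕ} (B : Set (Fin k → ℝ)) : Prop :=
  ∃ H : Set (Fin k → ℝ), IsExposed ℝ (convexHull ℝ (cubeVertices k)) H ∧ B = H ∩ cubeVertices k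

/-- `F` is combinatorially isomorphic to the `k`-cube: a bijection of the vertices which
matches the vertex sets of exposed faces. -/
def IsCombCube {d : ℕ} (k : ℕ) (F : Set (Space d)) : Prop :=
  ∃ e : F.extremePoints ℝ ≃ cubeVertices k, ∀ A : Set (F.extremePoints ℝ),
    IsFaceOf F (Subtype.val '' A) ↔ IsCubeFace (Subtype.val '' (e '' A))

/-- For all `k` and `l` there is `N` such that the following holds for every polytope `P`, the
convex hull of the finite set `S ⊂ ℝ^d`, and every affine map `φ : ℝ^d → ℝ^m` (not necessarily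
injective) with `φ(S) ⊂ {0,1}^m` and `dim φ(S) ≥ N`: the polytope `P` has a `k`-face which is a
simplex or an `l`-face which is an affine image of the `l`-cube (in particular combinatorially
isomorphic to it). -/
theorem result : ∀ k l : ℕ, ∃ N : ℕ, ∀ (d m : ℕ) (S : Finset (Space d))
    (φ : Space d →ᵃ[ℝ] (Fin m → ℝ)), (∀ x ∈ S, ∀ i, φ x i = 0 ∨ φ x i = 1) →
    N ≤ Module.finrank ℝ (affineSpan ℝ (φ '' (S : Set (Space d)))).direction →
    (∃ F : Set (Space d), F.Nonempty ∧ IsExposed ℝ (hull S) F ∧ dim F = k ∧ IsSimplex k F) ∨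
    (∃ F : Set (Space d), F.Nonempty ∧ IsExposed ℝ (hull S) F ∧ dim F = l ∧ IsAffineCube l F ∧
      IsCombCube l F) :=
  Pool.Agent.Lib.MP_257afc_co.ZO.H23.general

end Pool.Agent.Results.MP_257afc_co.ZeroOnePolytopes
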